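import Pool.Agent.Lib.MP_edb5be_nt.TS.H82.Gb
import Pool.Agent.Lib.MP_edb5be_nt.TS.Iface2

/-!
Project TS: GBM, the Gaussian law of the hitting time in the classes modulo `m`, in blocks.
-/

set_option autoImplicit false

namespace Pool.Agent.Lib.MP_edb5be_nt.TS.HB82

open Finset Filter Topology Pool.Agent.Lib.MP_0a5adf_nt.TP Pool.Agent.Lib.MP_edb5be_nt.ND
  Pool.Agent.Lib.MP_edb5be_nt.ND.H82

theorem first_succ {d : Bool} {W : Set ℕ} {n k : ℕ} (h : n ∉ W) :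
    First d W n (k + 1) ↔ First d W (T d n) k := by
  unfold First
  rw [Function.iterate_succ_apply]
  constructor
  · rintro ⟨h1, h2⟩
    refine ⟨h1, fun i hi => ?_⟩
    have h3 := h2 (i + 1) (by omega)
    rwa [Function.iterate_succ_apply] at h3
  · rintro ⟨h1, h2⟩
    refine ⟨h1, fun i hi => ?_⟩
    rcases Nat.eq_zero_or_pos i with h0 | h0
    · rw [h0]
      exact h
    · obtain ⟨i', rfl⟩ : ∃ i', i = i' + 1 := ⟨i - 1, by omega⟩
      rw [Function.iterate_succ_apply]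
      exact h2 i' (by omega)

theorem first_unique {d : Bool} {W : Set ℕ} {n k k' : ℕ} (h : First d W n k)
    (h' : First d W n k') : k = k' := by
  by_contra hne
  rcases lt_or_gt_of_ne hne with hlt | hgt
  · exact h'.2 k hlt h.1
  · exact h.2 k' hgt h'.1

theorem first_ex {d : Bool} {W : Set ℕ} {n : ℕ} (h : n ∈ Hit d W) : ∃ k, First d W n k := by
  classical
  obtain ⟨k, hk⟩ : ∃ k, (T d)^[k] n ∈ W := h
  have h1 : ∃ k, (T d)^[k] n ∈ W := ⟨k, hk⟩
  exact ⟨Nat.find h1, Nat.find_spec h1, fun i hi => Nat.find_min h1 hi⟩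

/-- The numbers whose first visit to `W` is at a time `c` modulo `m`. -/
def HitM (d : Bool) (W : Set ℕ) (m c : ℕ) : Set ℕ :=
  {n : ℕ | ∃ k : ℕ, First d W n k ∧ k ≡ c [MOD m]}

theorem not_mem_of_ge {W : Set ℕ} {lo : ℕ} (h : ∀ w ∈ W, w < 2 ^ lo) {n : ℕ} (hn : 2 ^ lo ≤ n) :
    n ∉ W := fun hw => absurd (h n hw) (by omega)

theorem hitM_inv {d : Bool} {W : Set ℕ} {lo : ℕ} (h : ∀ w ∈ W, w < 2 ^ lo) (m : ℕ) :
    InvF d (HitM d W m) lo := by
  intro n hn t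
  have hnW := not_mem_of_ge h hn
  constructor
  · rintro ⟨k, hk, hkm⟩
    rcases Nat.eq_zero_or_pos k with h0 | h0
    · rw [h0] at hk
      exact absurd hk.1 hnW
    · obtain ⟨k', rfl⟩ : ∃ k', k = k' + 1 := ⟨k - 1, by omega⟩
      exact ⟨k', (first_succ hnW).1 hk, Nat.ModEq.add_right_cancel' 1 hkm⟩
  · rintro ⟨k, hk, hkm⟩
    exact ⟨k + 1, (first_succ hnW).2 hk, hkm.add_right 1⟩

theorem hitM_per (d : Bool) (W : Set ℕ) (m t : ℕ) : HitM d W m (t + m) = HitM d W m t := by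
  have e : t + m ≡ t [MOD m] := by
    unfold Nat.ModEq
    simp
  ext n
  constructor
  · rintro ⟨k, h1, h2⟩
    exact ⟨k, h1, h2.trans e⟩
  · rintro ⟨k, h1, h2⟩
    exact ⟨k, h1, h2.trans e.symm⟩

theorem hitM_mod (d : Bool) (W : Set ℕ) (m c : ℕ) : HitM d W m (c % m) = HitM d W m c := by
  ext n
  constructor
  · rintro ⟨k, h1, h2⟩
    exact ⟨k, h1, h2.trans (Nat.mod_modEq c m)⟩
  · rintro ⟨k, h1, h2⟩
    exact ⟨k, h1, h2.trans (Nat.mod_modEq c m).symm⟩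

theorem gd_hit (d : Bool) (W : Set ℕ) {m : ℕ} (hm : 0 < m) (u : ℝ) :
    Gd (Hit d W) u = ∑ r ∈ range m, Gd (HitM d W m r) u := by
  classical
  unfold Gd
  rw [← Finset.sum_div, ← Nat.cast_sum]
  congr 2
  have hf := H63.blkB_fin (Hit d W) u
  choose! τ hτ using fun (n : ℕ) (h : n ∈ Hit d W) => first_ex h
  have h1 : {N : ℕ | N ∈ Hit d W ∧ (2 : ℝ) ^ u ≤ N ∧ (N : ℝ) < 2 ^ (u + 1)}.ncard =
      hf.toFinset.card := Set.ncard_eq_toFinset_card _ hf
  rw [h1, Finset.card_eq_sum_card_fiberwise (f := fun n => τ n % m) (t := range m)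
    (fun n _ => by
      rw [Finset.mem_coe, Finset.mem_range]
      exact Nat.mod_lt _ hm)]
  refine Finset.sum_congr rfl fun r hr => ?_
  rw [← Set.ncard_coe_finset]
  congr 1
  ext N
  rw [Finset.mem_coe, Finset.mem_filter, Set.Finite.mem_toFinset]
  rw [Finset.mem_range] at hr
  constructor
  · rintro ⟨⟨h2, h3⟩, h4⟩
    refine ⟨⟨τ N, hτ N h2, ?_⟩, h3⟩
    unfold Nat.ModEq
    rw [h4, Nat.mod_eq_of_lt hr]
  · rintro ⟨⟨k, h2, h3⟩, h4⟩
    have h5 : N ∈ Hit d W := ⟨k, h2.1⟩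
    refine ⟨⟨h5, h4⟩, ?_⟩
    rw [first_unique (hτ N h5) h2]
    unfold Nat.ModEq at h3
    rw [h3, Nat.mod_eq_of_lt hr]

theorem dens_hitM (hP : PERStatement) {d : Bool} {W : Set ℕ} {D : ℝ} (hW : W.Finite)
    (hD : Tendsto (Gd (Hit d W)) atTop (𝓝 D)) {m : ℕ} (hm : 0 < m) (r : ℕ) :
    Tendsto (Gd (HitM d W m r)) atTop (𝓝 (D / m)) := by
  obtain ⟨lo, hlo⟩ : ∃ lo : ℕ, ∀ w ∈ W, w < 2 ^ lo := by
    obtain ⟨M, hM⟩ := hW.bddAbove
    exact ⟨M, fun w hw => (hM hw).trans_lt Nat.lt_two_pow_self⟩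
  have hm' : (m : ℝ) ≠ 0 := by exact_mod_cast hm.ne'
  have h1 : ∀ r : ℕ, Tendsto (fun u => Gd (HitM d W m r) u - Gd (HitM d W m 0) u) atTop (𝓝 0) := by
    intro r
    induction r with
    | zero => simp
    | succ r ih =>
      have h2 := hP d (HitM d W m) lo m hm (hitM_inv hlo m) (hitM_per d W m) r
      have h3 := h2.add ih
      rw [add_zero] at h3
      refine h3.congr fun u => ?_
      ring
  have h2 : Tendsto (fun u => ∑ r ∈ range m, (Gd (HitM d W m r) u - Gd (HitM d W m 0) u)) atTop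
      (𝓝 0) := by
    have h3 := tendsto_finsetSum (range m) fun r _ => h1 r
    simpa using h3
  have h4 : Tendsto (Gd (HitM d W m 0)) atTop (𝓝 (D / m)) := by
    have h5 := (hD.sub h2).div_const (m : ℝ)
    rw [sub_zero] at h5
    refine h5.congr fun u => ?_
    rw [gd_hit d W hm u, Finset.sum_sub_distrib]
    simp only [sum_const, card_range, nsmul_eq_mul]
    field_simp
    ring
  have h6 := (h1 r).add h4
  rw [zero_add] at h6
  refine h6.congr fun u => ?_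
  ring

/-- The family used for GBM. -/
def FM (d : Bool) (W : Set ℕ) (m c t : ℕ) : Set ℕ := RchM d W m (c + t) t

theorem fm_inv {d : Bool} {W : Set ℕ} {lo : ℕ} (h : ∀ w ∈ W, w < 2 ^ lo) (m c : ℕ) :
    InvF d (FM d W m c) lo := by
  intro n hn t
  have hnW := not_mem_of_ge h hn
  constructor
  · rintro ⟨k, hkt, hk, hkm⟩
    rcases Nat.eq_zero_or_pos k with h0 | h0
    · rw [h0] at hk
      exact absurd hk.1 hnW
    · obtain ⟨k', rfl⟩ : ∃ k', k = k' + 1 := ⟨k - 1, by omega⟩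
      exact ⟨k', by omega, (first_succ hnW).1 hk, Nat.ModEq.add_right_cancel' 1 hkm⟩
  · rintro ⟨k, hkt, hk, hkm⟩
    exact ⟨k + 1, by omega, (first_succ hnW).2 hk, hkm.add_right 1⟩

theorem fm_zero {d : Bool} {W : Set ℕ} {lo : ℕ} (h : ∀ w ∈ W, w < 2 ^ lo) (m c t n : ℕ)
    (hn : n ∈ FM d W m c t) : n < 2 ^ (lo + t) := by
  obtain ⟨k, hk, hkW, -⟩ := hn
  exact rch_zero h t n ⟨k, hk, hkW.1⟩

theorem fm_sub (d : Bool) (W : Set ℕ) (m c t n : ℕ) (hn : n ∈ FM d W m c t) :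
    n ∈ HitM d W m (c + t) := by
  obtain ⟨k, -, h1, h2⟩ := hn
  exact ⟨k, h1, h2⟩

theorem fm_base (hP : PERStatement) {d : Bool} {W : Set ℕ} {D : ℝ} (hW : W.Finite)
    (hD : Tendsto (Gd (Hit d W)) atTop (𝓝 D)) {m : ℕ} (hm : 0 < m) (c : ℕ) :
    Base (fun t x => Gd (FM d W m c t) x) (D / m) := by
  classical
  intro η hη
  have h1 : ∀ᶠ x : ℝ in atTop, ∀ r ∈ range m, D / m - η < Gd (HitM d W m r) x := by
    rw [Filter.eventually_all_finset]
    intro r _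
    exact (dens_hitM hP hW hD hm r).eventually (lt_mem_nhds (by linarith))
  obtain ⟨x₀, hx₀⟩ := eventually_atTop.1 h1
  refine ⟨x₀, fun M => ?_⟩
  choose! τ hτ using fun (n : ℕ) (h : n ∈ Hit d W) => first_ex h
  refine ⟨((range ⌈(2 : ℝ) ^ (M + 1)⌉₊).sup τ), ?_⟩
  intro t ht x hx hxM
  have h2 := hx₀ x hx ((c + t) % m) (Finset.mem_range.2 (Nat.mod_lt _ hm))
  rw [hitM_mod] at h2
  refine h2.le.trans ?_
  apply gd_mono
  rintro N _ hN2 ⟨k, hk1, hk2⟩
  refine ⟨k, ?_, hk1, hk2⟩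
  have h3 : N ∈ Hit d W := ⟨k, hk1.1⟩
  rw [← first_unique (hτ N h3) hk1]
  refine le_trans ?_ ht
  apply Finset.le_sup (f := τ)
  rw [Finset.mem_range]
  have h4 : (N : ℝ) < 2 ^ (M + 1) := hN2.trans_le
    (Real.rpow_le_rpow_of_exponent_le (by norm_num) (by linarith))
  exact_mod_cast h4.trans_le (Nat.le_ceil _)

theorem fm_mod (d : Bool) (W : Set ℕ) (m c c' t : ℕ) (h : c' + t ≡ c [MOD m]) :
    FM d W m c' t = RchM d W m c t := by
  ext n
  constructor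
  · rintro ⟨k, h1, h2, h3⟩
    exact ⟨k, h1, h2, h3.trans h⟩
  · rintro ⟨k, h1, h2, h3⟩
    exact ⟨k, h1, h2, h3.trans h.symm⟩

/-- GBM -/
theorem gbm (hP : PERStatement) : GBMStatement := by
  intro d W D hW hD m hm z t c ht
  obtain ⟨C, u₀, hC, hu₀, hT⟩ := tgf_of
  obtain ⟨lo, hlo⟩ : ∃ lo : ℕ, ∀ w ∈ W, w < 2 ^ lo := by
    obtain ⟨M, hM⟩ := hW.bddAbove
    exact ⟨M, fun w hw => (hM hw).trans_lt Nat.lt_two_pow_self⟩
  obtain ⟨hD0, hD2⟩ := dens_bd (dens_hitM hP hW hD hm 0)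
  -- the residue
  obtain ⟨c', hc', hcm⟩ : ∃ c' : ℝ → ℕ, (∀ u, c' u < m) ∧ ∀ u, c' u + t u ≡ c u [MOD m] := by
    refine ⟨fun u => (c u + (m - 1) * t u) % m, fun u => Nat.mod_lt _ hm, fun u => ?_⟩
    have e1 : (c u + (m - 1) * t u) % m + t u ≡ (c u + (m - 1) * t u) + t u [MOD m] :=
      (Nat.mod_modEq _ m).add_right _
    have e2 : (c u + (m - 1) * t u) + t u = c u + m * t u := by
      obtain ⟨m', rfl⟩ : ∃ m', m = m' + 1 := ⟨m - 1, by omega⟩
      simp only [Nat.add_sub_cancel]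
      ring
    rw [e2] at e1
    refine e1.trans ?_
    unfold Nat.ModEq
    simp
  have hF : ∀ c₀ : ℕ, TGF (fun t x => Gd (FM d W m c₀ t) x) lo C u₀ := fun c₀ =>
    hT d (FM d W m c₀) lo (fm_inv hlo m c₀) (fm_zero hlo m c₀)
  have h1 : ∀ η : ℝ, 0 < η → ∀ᶠ u : ℝ in atTop, ∀ c₀ ∈ range m,
      D / m * PhiG z - η ≤ Gd (FM d W m c₀ (t u)) u := by
    intro η hη
    rw [Filter.eventually_all_finset]
    intro c₀ _
    exact gauss_low (l := atTop) (u := id) (t := t) (z := z) hC (hF c₀) hD0 hD2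
      (fm_base hP hW hD hm c₀) tendsto_id (asym_eq z t ht) η hη
  have h2 := gauss_up (l := atTop) (F := fun (a : ℝ) t x => Gd (FM d W m (c' a) t) x)
    (lo := fun _ : ℝ => (lo : ℝ))
    (u := id) (t := t) (z := z) hC (fun a => hF (c' a)) hD0 hD2 (by
      intro η hη
      have e1 : ∀ᶠ x : ℝ in atTop, ∀ r ∈ range m, Gd (HitM d W m r) x < D / m + η := by
        rw [Filter.eventually_all_finset]
        intro r _
        exact (dens_hitM hP hW hD hm r).eventually (gt_mem_nhds (by linarith))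
      obtain ⟨x₀, hx₀⟩ := eventually_atTop.1 e1
      refine ⟨x₀, Eventually.of_forall fun a t x hx => ?_⟩
      have e2 := hx₀ x hx ((c' a + t) % m) (Finset.mem_range.2 (Nat.mod_lt _ hm))
      rw [hitM_mod] at e2
      refine le_trans (gd_mono ?_) e2.le
      intro N _ _ hN
      exact fm_sub d W m (c' a) t N hN) tendsto_id
    (tendsto_const_nhds.div_atTop (Real.tendsto_sqrt_atTop.comp tendsto_id)) (asym_eq z t ht)
  rw [Metric.tendsto_nhds]
  intro ε hε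
  filter_upwards [h1 (ε / 2) (by linarith), h2 (ε / 2) (by linarith)] with u hu1 hu2
  have hu3 := hu1 (c' u) (Finset.mem_range.2 (hc' u))
  rw [Real.dist_eq, abs_lt]
  simp only [id_eq] at hu2
  rw [fm_mod d W m (c u) (c' u) (t u) (hcm u)] at hu2 hu3
  constructor <;> linarith

end Pool.Agent.Lib.MP_edb5be_nt.TS.HB82
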