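import Pool.Agent.Lib.MP_edb5be_nt.TS.H82.Inst

/-!
Project TS: GB, the Gaussian law of the time to reach a finite set, in blocks.
-/

set_option autoImplicit false

namespace Pool.Agent.Lib.MP_edb5be_nt.TS.HB82

open Finset Filter Topology Pool.Agent.Lib.MP_0a5adf_nt.TP Pool.Agent.Lib.MP_edb5be_nt.ND
  Pool.Agent.Lib.MP_edb5be_nt.ND.H82

theorem rch_inv {d : Bool} {W : Set ℕ} {lo : ℕ} (h : ∀ w ∈ W, w < 2 ^ lo) :
    InvF d (Rch d W) lo := by
  intro n hn t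
  constructor
  · rintro ⟨k, hk, hkW⟩
    rcases Nat.eq_zero_or_pos k with h0 | h0
    · rw [h0] at hkW
      have := h _ hkW
      simp only [Function.iterate_zero, id_eq] at this
      omega
    · obtain ⟨k', rfl⟩ : ∃ k', k = k' + 1 := ⟨k - 1, by omega⟩
      exact ⟨k', by omega, by rwa [Function.iterate_succ_apply] at hkW⟩
  · rintro ⟨k, hk, hkW⟩
    exact ⟨k + 1, by omega, by rwa [Function.iterate_succ_apply]⟩

theorem rch_zero {d : Bool} {W : Set ℕ} {lo : ℕ} (h : ∀ w ∈ W, w < 2 ^ lo) (t n : ℕ)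
    (hn : n ∈ Rch d W t) : n < 2 ^ (lo + t) := by
  obtain ⟨k, hk, hkW⟩ := hn
  calc n ≤ 2 ^ k * (T d)^[k] n := le_pow_T d k n
    _ ≤ 2 ^ t * (T d)^[k] n := Nat.mul_le_mul_right _ (Nat.pow_le_pow_right (by norm_num) hk)
    _ < 2 ^ t * 2 ^ lo := Nat.mul_lt_mul_of_pos_left (h _ hkW) (by positivity)
    _ = 2 ^ (lo + t) := by rw [pow_add, mul_comm]

theorem asym_eq (z : ℝ) (t : ℝ → ℕ) (h : AsymT z t) :
    Tendsto (fun u : ℝ => (2 * mu * t u - 2 * u) / (th * √(u / mu))) atTop (𝓝 z) := by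
  refine h.congr fun u => ?_
  have h1 : (2 * mu * t u - 2 * u) / (th * √(u / mu)) =
      (2 * (mu * t u - u)) / (2 * (th / 2 * √(u / mu))) := by
    congr 1 <;> ring
  rw [h1, mul_div_mul_left _ _ (by norm_num : (2 : ℝ) ≠ 0)]

theorem dens_bd {B : Set ℕ} {D : ℝ} (h : Tendsto (Gd B) atTop (𝓝 D)) : 0 ≤ D ∧ D ≤ 2 :=
  ⟨ge_of_tendsto h (Eventually.of_forall fun u => gd_nonneg B u),
    le_of_tendsto h (Eventually.of_forall fun u => gd_le_two B u)⟩

/-- GB -/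
theorem gb : GBStatement := by
  intro d W D hW hD z t ht
  obtain ⟨C, u₀, hC, hu₀, hT⟩ := tgf_of
  obtain ⟨lo, hlo⟩ : ∃ lo : ℕ, ∀ w ∈ W, w < 2 ^ lo := by
    obtain ⟨M, hM⟩ := hW.bddAbove
    exact ⟨M, fun w hw => (hM hw).trans_lt Nat.lt_two_pow_self⟩
  have hF := hT d (Rch d W) lo (rch_inv hlo) (rch_zero hlo)
  obtain ⟨hD0, hD2⟩ := dens_bd hD
  have hmono : ∀ t t' : ℕ, t ≤ t' → Rch d W t ⊆ Rch d W t' := by
    rintro t t' htt n ⟨k, hk, hkW⟩
    exact ⟨k, hk.trans htt, hkW⟩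
  have hB : Base (fun t x => Gd (Rch d W t) x) D := by
    apply base_of hmono _ hD
    rintro n ⟨i, hi⟩
    exact ⟨i, i, le_rfl, hi⟩
  have h1 := gauss_low (l := atTop) (u := id) (t := t) (z := z) hC hF hD0 hD2 hB tendsto_id
    (asym_eq z t ht)
  have h2 := gauss_up (l := atTop) (F := fun _ t x => Gd (Rch d W t) x) (lo := fun _ : ℝ => (lo : ℝ))
    (u := id) (t := t) (z := z) hC (fun _ => hF) hD0 hD2 (by
      intro η hη
      obtain ⟨x₀, hx₀⟩ := eventually_atTop.1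
        (hD.eventually (gt_mem_nhds (show D < D + η by linarith)))
      refine ⟨x₀, Eventually.of_forall fun _ t x hx => ?_⟩
      refine le_trans (gd_mono ?_) (hx₀ x hx).le
      rintro N - - ⟨k, -, hk⟩
      exact ⟨k, hk⟩) tendsto_id
    (tendsto_const_nhds.div_atTop (Real.tendsto_sqrt_atTop.comp tendsto_id)) (asym_eq z t ht)
  rw [Metric.tendsto_nhds]
  intro ε hε
  filter_upwards [h1 (ε / 2) (by linarith), h2 (ε / 2) (by linarith)] with u hu1 hu2
  rw [Real.dist_eq, abs_lt]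
  simp only [id_eq] at hu1 hu2
  constructor <;> linarith

end Pool.Agent.Lib.MP_edb5be_nt.TS.HB82
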