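import Pool.Agent.Lib.MP_edb5be_nt.TS.H82.Gb

/-!
Project TS: GS, the Gaussian law of the time to fall below `2 ^ lo u`, in blocks.
-/

set_option autoImplicit false

namespace Pool.Agent.Lib.MP_edb5be_nt.TS.HB82

open Finset Filter Topology Pool.Agent.Lib.MP_0a5adf_nt.TP Pool.Agent.Lib.MP_edb5be_nt.ND
  Pool.Agent.Lib.MP_edb5be_nt.ND.H82

theorem fll_inv {d : Bool} {S : Set ℕ} {lo : ℕ} (h : InvA d S lo) : InvF d (Fll d S lo) lo := by
  intro n hn t
  constructor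
  · rintro ⟨hS, k, hk, hkW⟩
    refine ⟨(h n hn).1 hS, ?_⟩
    rcases Nat.eq_zero_or_pos k with h0 | h0
    · rw [h0] at hkW
      simp only [Function.iterate_zero, id_eq] at hkW
      omega
    · obtain ⟨k', rfl⟩ : ∃ k', k = k' + 1 := ⟨k - 1, by omega⟩
      exact ⟨k', by omega, by rwa [Function.iterate_succ_apply] at hkW⟩
  · rintro ⟨hS, k, hk, hkW⟩
    exact ⟨(h n hn).2 hS, k + 1, by omega, by rwa [Function.iterate_succ_apply]⟩

theorem fll_zero {d : Bool} {S : Set ℕ} {lo : ℕ} (t n : ℕ) (hn : n ∈ Fll d S lo t) :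
    n < 2 ^ (lo + t) := by
  obtain ⟨-, k, hk, hkW⟩ := hn
  calc n ≤ 2 ^ k * (T d)^[k] n := le_pow_T d k n
    _ ≤ 2 ^ t * (T d)^[k] n := Nat.mul_le_mul_right _ (Nat.pow_le_pow_right (by norm_num) hk)
    _ < 2 ^ t * 2 ^ lo := Nat.mul_lt_mul_of_pos_left hkW (by positivity)
    _ = 2 ^ (lo + t) := by rw [pow_add, mul_comm]

theorem invA_mono {d : Bool} {S : Set ℕ} {lo lo' : ℕ} (h : InvA d S lo) (hl : lo ≤ lo') :
    InvA d S lo' := fun n hn => h n (le_trans (Nat.pow_le_pow_right (by norm_num) hl) hn)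

/-- The numbers of `S` that fall below `2 ^ m` some time. -/
def FllI (d : Bool) (S : Set ℕ) (m : ℕ) : Set ℕ := {n : ℕ | n ∈ S ∧ ∃ k : ℕ, (T d)^[k] n < 2 ^ m}

theorem fllI_inv {d : Bool} {S : Set ℕ} {m : ℕ} (h : InvA d S m) : InvA d (FllI d S m) m := by
  intro n hn
  constructor
  · rintro ⟨hS, k, hkW⟩
    refine ⟨(h n hn).1 hS, ?_⟩
    rcases Nat.eq_zero_or_pos k with h0 | h0
    · rw [h0] at hkW
      simp only [Function.iterate_zero, id_eq] at hkW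
      omega
    · obtain ⟨k', rfl⟩ : ∃ k', k = k' + 1 := ⟨k - 1, by omega⟩
      exact ⟨k', by rwa [Function.iterate_succ_apply] at hkW⟩
  · rintro ⟨hS, k, hkW⟩
    exact ⟨(h n hn).2 hS, k + 1, by rwa [Function.iterate_succ_apply]⟩

theorem gd_union_le {A B E : Set ℕ} {u : ℝ} (h : ∀ n, n ∈ A → n ∈ B ∨ n ∈ E) :
    Gd A u ≤ Gd B u + Gd E u := by
  have h1 : (H63.blkB A u).ncard ≤ (H63.blkB B u).ncard + (H63.blkB E u).ncard := by
    refine (Set.ncard_le_ncard ?_ ((H63.blkB_fin B u).union (H63.blkB_fin E u))).trans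
      (Set.ncard_union_le _ _)
    intro N hN
    rcases h N hN.1 with h2 | h2
    · exact Or.inl ⟨h2, hN.2⟩
    · exact Or.inr ⟨h2, hN.2⟩
  have h2 : ((H63.blkB A u).ncard : ℝ) ≤ (H63.blkB B u).ncard + (H63.blkB E u).ncard := by
    exact_mod_cast h1
  calc Gd A u = ((H63.blkB A u).ncard : ℝ) / 2 ^ u := rfl
    _ ≤ ((H63.blkB B u).ncard + (H63.blkB E u).ncard : ℝ) / 2 ^ u :=
        div_le_div_of_nonneg_right h2 (by positivity)
    _ = Gd B u + Gd E u := by rw [add_div]; rfl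

/-- the numbers that never fall below `2 ^ m` -/
theorem never (d : Bool) : ∃ c C : ℝ, 0 < c ∧ 0 < C ∧ ∀ (m : ℕ) (u : ℝ), 0 ≤ u →
    Gd {n : ℕ | ∀ k, 2 ^ m ≤ (T d)^[k] n} u ≤ C / ((2 : ℝ) ^ m) ^ c := by
  obtain ⟨-, c, C, hc, hC, h⟩ := densityT d
  refine ⟨c, 2 * C, hc, by positivity, fun m u hu => ?_⟩
  have hp : (0 : ℝ) < 2 ^ u := by positivity
  have hp1 : (2 : ℝ) ^ (u + 1) = 2 * 2 ^ u := by
    rw [Real.rpow_add (by norm_num), Real.rpow_one]
    ring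
  have hx : (1 : ℝ) ≤ 2 ^ (u + 1) := Real.one_le_rpow (by norm_num) (by linarith)
  have hm : (1 : ℝ) ≤ 2 ^ m := one_le_pow₀ (by norm_num)
  have h1 := h (2 ^ (u + 1)) (2 ^ m) hx hm
  have hfin : {n : ℕ | (n : ℝ) ≤ 2 ^ (u + 1) ∧ ∀ k, (2 : ℝ) ^ m ≤ ((T d)^[k] n : ℝ)}.Finite := by
    refine (Set.finite_Iic ⌊(2 : ℝ) ^ (u + 1)⌋₊).subset fun n hn => ?_
    exact Nat.le_floor hn.1
  have h2 : (H63.blkB {n : ℕ | ∀ k, 2 ^ m ≤ (T d)^[k] n} u).ncard ≤
      {n : ℕ | (n : ℝ) ≤ 2 ^ (u + 1) ∧ ∀ k, (2 : ℝ) ^ m ≤ ((T d)^[k] n : ℝ)}.ncard := by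
    apply Set.ncard_le_ncard _ hfin
    intro N hN
    refine ⟨hN.2.2.le, fun k => ?_⟩
    exact_mod_cast hN.1 k
  have h3 : ((H63.blkB {n : ℕ | ∀ k, 2 ^ m ≤ (T d)^[k] n} u).ncard : ℝ) ≤
      C * 2 ^ (u + 1) / ((2 : ℝ) ^ m) ^ c := le_trans (by exact_mod_cast h2) h1
  calc Gd {n : ℕ | ∀ k, 2 ^ m ≤ (T d)^[k] n} u
      = ((H63.blkB {n : ℕ | ∀ k, 2 ^ m ≤ (T d)^[k] n} u).ncard : ℝ) / 2 ^ u := rfl
    _ ≤ (C * 2 ^ (u + 1) / ((2 : ℝ) ^ m) ^ c) / 2 ^ u :=
        div_le_div_of_nonneg_right h3 hp.le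
    _ = 2 * C / ((2 : ℝ) ^ m) ^ c := by
        rw [hp1]
        field_simp

theorem tend_pow {c : ℝ} (C : ℝ) (hc : 0 < c) :
    Tendsto (fun m : ℕ => C / ((2 : ℝ) ^ m) ^ c) atTop (𝓝 0) := by
  apply tendsto_const_nhds.div_atTop
  exact (tendsto_rpow_atTop hc).comp (tendsto_pow_atTop_atTop_of_one_lt (by norm_num))

/-- GS -/
theorem gs : GSStatement := by
  intro d S lo₀ D hS hD lo hlo hlo2 z t ht
  obtain ⟨C, u₀, hC, hu₀, hT⟩ := tgf_of
  obtain ⟨hD0, hD2⟩ := dens_bd hD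
  have hz := asym_eq z t ht
  have hPhi0 := PhiG_nonneg z
  have hPhi1 := PhiG_le_one z
  -- upper bound
  have h2 := gauss_up (l := atTop)
    (F := fun (a : ℝ) t x => Gd (Fll d S (max (lo a) lo₀) t) x)
    (lo := fun a : ℝ => ((max (lo a) lo₀ : ℕ) : ℝ))
    (u := id) (t := t) (z := z) hC
    (fun a => hT d _ _ (fll_inv (invA_mono hS (le_max_right _ _))) fll_zero) hD0 hD2 (by
      intro η hη
      obtain ⟨x₀, hx₀⟩ := eventually_atTop.1
        (hD.eventually (gt_mem_nhds (show D < D + η by linarith)))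
      refine ⟨x₀, Eventually.of_forall fun _ t x hx => ?_⟩
      refine le_trans (gd_mono ?_) (hx₀ x hx).le
      rintro N - - ⟨h, -⟩
      exact h) tendsto_id (by
      refine Tendsto.congr' ?_ hlo2
      filter_upwards [hlo.eventually_ge_atTop lo₀] with a ha
      rw [max_eq_left ha]
      rfl) hz
  -- lower bound
  have h1 : ∀ η : ℝ, 0 < η → ∀ᶠ a in atTop, D * PhiG z - η ≤ Gd (Fll d S (lo a) (t a)) a := by
    intro η hη
    obtain ⟨c, C₁, hc, hC₁, hnev⟩ := never d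
    obtain ⟨C₂, u₂, hC₂, hconv⟩ := convT
    obtain ⟨m, hm1, hm2⟩ := ((tend_pow C₁ hc).eventually
      (gt_mem_nhds (show (0 : ℝ) < η / 2 by linarith))).and (eventually_ge_atTop lo₀) |>.exists
    obtain ⟨Dm, -, -, hDm⟩ := hconv d (FllI d S m) m (fllI_inv (invA_mono hS hm2))
    have hDt : Tendsto (Gd (FllI d S m)) atTop (𝓝 Dm) := by
      rw [tendsto_iff_norm_sub_tendsto_zero]
      have a1 : Tendsto (fun u : ℝ => C₂ * u ^ (-(1 / 38) : ℝ)) atTop (𝓝 0) := by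
        simpa using (tendsto_rpow_neg_atTop (by norm_num : (0 : ℝ) < 1 / 38)).const_mul C₂
      refine squeeze_zero' (Eventually.of_forall fun u => norm_nonneg _) ?_ a1
      filter_upwards [eventually_ge_atTop u₂, eventually_ge_atTop (100 / 83 * (m : ℝ))] with u h3 h4
      rw [Real.norm_eq_abs]
      exact hDm u h3 (by linarith)
    obtain ⟨hm0, hm2'⟩ := dens_bd hDt
    have hDD : D - η / 2 ≤ Dm := by
      have e1 : ∀ᶠ u : ℝ in atTop, Gd S u ≤ Gd (FllI d S m) u + η / 2 := by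
        filter_upwards [eventually_ge_atTop (0 : ℝ)] with u hu
        have e2 : Gd S u ≤ Gd (FllI d S m) u + Gd {n : ℕ | ∀ k, 2 ^ m ≤ (T d)^[k] n} u := by
          apply gd_union_le
          intro n hn
          by_cases h5 : ∃ k : ℕ, (T d)^[k] n < 2 ^ m
          · exact Or.inl ⟨hn, h5⟩
          · right
            intro k
            by_contra h6
            exact h5 ⟨k, by omega⟩
        have e3 := hnev m u hu
        linarith
      have e4 := le_of_tendsto_of_tendsto hD (hDt.add_const (η / 2)) e1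
      linarith
    have hF := hT d (Fll d S m) m (fll_inv (invA_mono hS hm2)) fll_zero
    have hmono : ∀ t t' : ℕ, t ≤ t' → Fll d S m t ⊆ Fll d S m t' := by
      rintro t t' htt n ⟨hnS, k, hk, hkW⟩
      exact ⟨hnS, k, hk.trans htt, hkW⟩
    have hB : Base (fun t x => Gd (Fll d S m t) x) Dm := by
      apply base_of hmono _ hDt
      rintro n ⟨hnS, k, hk⟩
      exact ⟨k, hnS, k, le_rfl, hk⟩
    have h3 := gauss_low (l := atTop) (u := id) (t := t) (z := z) hC hF hm0 hm2' hB tendsto_id hz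
      (η / 2) (by linarith)
    filter_upwards [h3, hlo.eventually_ge_atTop m] with a ha1 ha2
    simp only [id_eq] at ha1
    have h4 : Gd (Fll d S m (t a)) a ≤ Gd (Fll d S (lo a) (t a)) a := by
      apply gd_mono
      rintro N - - ⟨hnS, k, hk, hkW⟩
      exact ⟨hnS, k, hk, hkW.trans_le (Nat.pow_le_pow_right (by norm_num) ha2)⟩
    have h5 : (D - η / 2) * PhiG z ≤ Dm * PhiG z := mul_le_mul_of_nonneg_right hDD hPhi0
    have h6 : η / 2 * PhiG z ≤ η / 2 := mul_le_of_le_one_right (by linarith) hPhi1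
    linarith
  rw [Metric.tendsto_nhds]
  intro ε hε
  filter_upwards [h1 (ε / 2) (by linarith), h2 (ε / 2) (by linarith),
    hlo.eventually_ge_atTop lo₀] with u hu1 hu2 hu3
  rw [Real.dist_eq, abs_lt]
  simp only [id_eq, max_eq_left hu3] at hu1 hu2
  constructor <;> linarith

end Pool.Agent.Lib.MP_edb5be_nt.TS.HB82
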