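import Pool.Agent.Lib.MP_edb5be_nt.TS.H82.Inst

/-!
Project TS: KMF, many steps of the walk for families of sets.
-/

set_option autoImplicit false

namespace Pool.Agent.Lib.MP_edb5be_nt.TS.HB82

open Finset Filter Topology Pool.Agent.Lib.MP_0a5adf_nt.TP Pool.Agent.Lib.MP_edb5be_nt.ND
  Pool.Agent.Lib.MP_edb5be_nt.ND.H82

open Classical in
/-- probability to be above `V` after `n` steps from `x` -/
noncomputable def tu (n : ℕ) (x V : ℝ) : ℝ :=
  ∑ v ∈ (range (n + 1)).filter (fun v : ℕ => V < x - n + th * v), bw n v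

theorem tu_zero {n : ℕ} {x V : ℝ} (h : x + 3 / 5 * n ≤ V) : tu n x V = 0 := by
  unfold tu
  apply Finset.sum_eq_zero
  intro v hv
  rw [Finset.mem_filter, Finset.mem_range] at hv
  exfalso
  have h1 : (v : ℝ) ≤ n := by exact_mod_cast Nat.lt_succ_iff.1 hv.1
  have h2 := th_le
  have h3 := thp
  have h4 : th * v ≤ 8 / 5 * n := by
    have h5 : (0 : ℝ) ≤ v := Nat.cast_nonneg v
    nlinarith
  have h5 := hv.2
  linarith

theorem tu_le {n : ℕ} {x V y : ℝ} (hy : 0 ≤ y) (h : x - mu * n + y ≤ V) :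
    tu n x V ≤ 2 * Real.exp (-(2 * (y / th) ^ 2 / n)) := by
  classical
  have hth := thp
  have h1 := Pool.Agent.Lib.MP_0a5adf_nt.TP.H15.hoeff n (y / th) (by positivity)
  have hsub : (range (n + 1)).filter (fun v : ℕ => V < x - n + th * v) ⊆
      (range (n + 1)).filter (fun k : ℕ => y / th ≤ |(k : ℝ) - n / 2|) := by
    intro v hv
    rw [Finset.mem_filter] at hv ⊢
    refine ⟨hv.1, ?_⟩
    have h2 := hv.2
    have h3 : y ≤ th * ((v : ℝ) - n / 2) := by
      unfold mu at h
      nlinarith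
    have h4 : y / th ≤ (v : ℝ) - n / 2 := by
      rw [div_le_iff₀ hth]
      nlinarith
    exact h4.trans (le_abs_self _)
  have h5 : tu n x V ≤ ∑ v ∈ (range (n + 1)).filter (fun k : ℕ => y / th ≤ |(k : ℝ) - n / 2|),
      bw n v := by
    unfold tu
    exact Finset.sum_le_sum_of_subset_of_nonneg hsub fun v _ _ => bw_nn n v
  refine h5.trans ?_
  have h6 : ∑ v ∈ (range (n + 1)).filter (fun k : ℕ => y / th ≤ |(k : ℝ) - n / 2|), bw n v =
      (∑ k ∈ (range (n + 1)).filter (fun k : ℕ => y / th ≤ |(k : ℝ) - n / 2|),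
        (n.choose k : ℝ)) / 2 ^ n := by
    unfold bw
    rw [Finset.sum_div]
  rw [h6, div_le_iff₀ (by positivity)]
  linarith

/-- the difference of two averages, the functions being close between `w` and `V` -/
theorem PJ_sub2 {n : ℕ} {f g : ℝ → ℝ} {x w V ε b : ℝ} (hε : 0 ≤ ε)
    (h : ∀ y, w ≤ y → y ≤ V → |f y - g y| ≤ ε) (h' : ∀ y, |f y - g y| ≤ b) :
    |PJ n f x - PJ n g x| ≤ ε + b * (tl n x w + tu n x V) := by
  classical
  have hb : 0 ≤ b := (abs_nonneg _).trans (h' 0)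
  have h1 : PJ n f x - PJ n g x =
      ∑ v ∈ range (n + 1), bw n v * (f (x - n + th * v) - g (x - n + th * v)) := by
    unfold PJ
    rw [← Finset.sum_sub_distrib]
    apply Finset.sum_congr rfl
    intro v _
    ring
  rw [h1]
  calc |∑ v ∈ range (n + 1), bw n v * (f (x - n + th * v) - g (x - n + th * v))|
      ≤ ∑ v ∈ range (n + 1), |bw n v * (f (x - n + th * v) - g (x - n + th * v))| :=
        Finset.abs_sum_le_sum_abs _ _
    _ ≤ ∑ v ∈ range (n + 1), (bw n v * ε + ((if x - n + th * v < w then b * bw n v else 0) +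
          (if V < x - n + th * v then b * bw n v else 0))) := by
        apply Finset.sum_le_sum
        intro v _
        rw [abs_mul, abs_of_nonneg (bw_nn n v)]
        have h3 := mul_le_mul_of_nonneg_left (h' (x - n + th * v)) (bw_nn n v)
        have h4 := mul_nonneg (bw_nn n v) hε
        have h5 := mul_nonneg hb (bw_nn n v)
        split_ifs with h2 h6 h6
        · linarith
        · linarith
        · linarith
        · have h7 := mul_le_mul_of_nonneg_left (h (x - n + th * v) (not_lt.1 h2) (not_lt.1 h6))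
            (bw_nn n v)
          linarith
    _ = ε + b * (tl n x w + tu n x V) := by
        rw [Finset.sum_add_distrib, Finset.sum_add_distrib, ← Finset.sum_mul, H50.sum_bw, one_mul,
          ← Finset.sum_filter, ← Finset.mul_sum, ← Finset.sum_filter, ← Finset.mul_sum, mul_add]
        rfl

/-- many steps, the formula being known between `w` and `V n` after `n` steps -/
theorem kstepV {G : ℕ → ℝ → ℝ} {w ε x : ℝ} {V : ℕ → ℝ} {J₀ K q r : ℕ} (hb : ∀ j x, |G j x| ≤ 2)
    (hε : 0 ≤ ε) (hK : K = q * J₀ + r) (hr : r ≤ J₀)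
    (h : ∀ (n J : ℕ) (y : ℝ), n + J ≤ K → J ≤ J₀ → w ≤ y → y ≤ V n →
      |G (K - n) y - PJ J (G (K - n - J)) y| ≤ ε) :
    |G K x - PJ K (G 0) x| ≤
      (q + 1) * ε + 4 * ∑ i ∈ range (q + 1), (tl (i * J₀) x w + tu (i * J₀) x (V (i * J₀))) := by
  have hstep : ∀ (n J : ℕ), n + J ≤ K → J ≤ J₀ →
      |PJ n (G (K - n)) x - PJ (n + J) (G (K - n - J)) x| ≤
        ε + 4 * (tl n x w + tu n x (V n)) := by
    intro n J hn hJ
    rw [← H63.semi]
    apply PJ_sub2 hε
    · intro y hy hyV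
      exact h n J y hn hJ hy hyV
    · intro y
      calc |G (K - n) y - PJ J (G (K - n - J)) y|
          ≤ |G (K - n) y| + |PJ J (G (K - n - J)) y| := abs_sub _ _
        _ ≤ 2 + 2 := add_le_add (hb _ _) (PJ_bound (hb _))
        _ = 4 := by norm_num
  have claim : ∀ i : ℕ, i ≤ q → |G K x - PJ (i * J₀) (G (K - i * J₀)) x| ≤
      i * ε + 4 * ∑ i ∈ range i, (tl (i * J₀) x w + tu (i * J₀) x (V (i * J₀))) := by
    intro i
    induction i with
    | zero =>
      intro _
      have h1 : PJ (0 * J₀) (G (K - 0 * J₀)) x = G K x := by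
        unfold PJ bw
        simp
      rw [h1]
      simp
    | succ i ih =>
      intro hi
      have h1 := ih (by omega)
      have h2 : (i + 1) * J₀ ≤ q * J₀ := Nat.mul_le_mul_right _ hi
      have h3 : i * J₀ + J₀ = (i + 1) * J₀ := by ring
      have h4 := hstep (i * J₀) J₀ (by omega) le_rfl
      have h5 : K - i * J₀ - J₀ = K - (i + 1) * J₀ := by omega
      rw [h3, h5] at h4
      rw [Finset.sum_range_succ]
      have h6 := abs_sub_le (G K x) (PJ (i * J₀) (G (K - i * J₀)) x)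
        (PJ ((i + 1) * J₀) (G (K - (i + 1) * J₀)) x)
      push_cast
      linarith
  have h1 := claim q le_rfl
  have h2 := hstep (q * J₀) r (by omega) hr
  have h3 : K - q * J₀ - r = 0 := by omega
  rw [h3, ← hK] at h2
  rw [Finset.sum_range_succ]
  have h6 := abs_sub_le (G K x) (PJ (q * J₀) (G (K - q * J₀)) x) (PJ K (G 0) x)
  linarith

/-- KMF -/
theorem kmf (hT : TGPFStatement) : KMFStatement := by
  obtain ⟨C, u₀, hC, hT⟩ := hT 4
  have hmu := mu_lo
  have hmu0 := mu_pos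
  have hev : ∀ᶠ x : ℝ in atTop, x ^ (3 / 5 : ℝ) ≤ x / 200 := by
    have h1 : Tendsto (fun x : ℝ => x ^ (2 / 5 : ℝ)) atTop atTop :=
      tendsto_rpow_atTop (by norm_num)
    filter_upwards [h1.eventually_ge_atTop 200, eventually_ge_atTop 1] with x hx hx1
    have hx0 : 0 < x := by linarith
    have h2 : x = x ^ (3 / 5 : ℝ) * x ^ (2 / 5 : ℝ) := by
      rw [← Real.rpow_add hx0]
      norm_num
    have h4 : 0 ≤ x ^ (3 / 5 : ℝ) := by positivity
    nth_rewrite 2 [h2]
    nlinarith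
  obtain ⟨u₁, hu₁⟩ := eventually_atTop.1 ((ev_exp.and hev).and
    ((eventually_ge_atTop (25600 : ℝ)).and (eventually_ge_atTop (u₀ ^ 2))))
  refine ⟨6 * (C + 16), max u₁ (max u₀ 1), by positivity, ?_⟩
  intro d B lo t K x hx hinv hmax ht
  obtain ⟨⟨hexp, h35⟩, hx1, hx2⟩ := hu₁ x ((le_max_left _ _).trans hx)
  have hxu₀ : u₀ ≤ x := (le_max_left _ _).trans ((le_max_right _ _).trans hx)
  have hx0 : 0 < x := by linarith
  have hy : (0 : ℝ) ≤ x ^ (3 / 5 : ℝ) := by positivity
  have hKnn : (0 : ℝ) ≤ K := Nat.cast_nonneg K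
  obtain ⟨w, hw⟩ : ∃ w, w = max (√x) (10 / 9 * (lo : ℝ)) := ⟨_, rfl⟩
  rw [← hw] at hmax
  have hwx : √x ≤ w := by
    rw [hw]
    exact le_max_left _ _
  have hwl : 10 / 9 * (lo : ℝ) ≤ w := by
    rw [hw]
    exact le_max_right _ _
  have hmuK : 0 ≤ mu * K := by positivity
  have hwx' : w ≤ x := by linarith
  rcases le_or_gt (K : ℝ) (x / 20) with hKs | hKs
  · have h1 := hT d B lo t K x hxu₀ (by linarith) hinv hKs ht
    refine h1.trans ?_
    have h2 : C / x ^ 4 ≤ C / x := by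
      apply div_le_div_of_nonneg_left hC.le hx0
      calc x = x ^ 1 := (pow_one x).symm
        _ ≤ x ^ 4 := pow_le_pow_right₀ (by linarith) (by norm_num)
    refine h2.trans ?_
    apply div_le_div_of_nonneg_right _ hx0.le
    linarith
  have hsx : 160 ≤ √x := by
    rw [show (160 : ℝ) = √25600 by
      rw [show (25600 : ℝ) = 160 ^ 2 by norm_num, Real.sqrt_sq (by norm_num)]]
    exact Real.sqrt_le_sqrt hx1
  have hsu : u₀ ≤ √x := Real.le_sqrt_of_sq_le hx2
  obtain ⟨J₀, hJ₀⟩ : ∃ J₀, J₀ = ⌊w / 80⌋₊ := ⟨_, rfl⟩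
  have hJ1 : 0 < J₀ := by
    rw [hJ₀]
    apply Nat.floor_pos.2
    linarith
  have hJ2 : (J₀ : ℝ) ≤ w / 80 := by
    rw [hJ₀]
    exact Nat.floor_le (by linarith)
  obtain ⟨q, hq⟩ : ∃ q, q = K / J₀ := ⟨_, rfl⟩
  obtain ⟨r, hr⟩ : ∃ r, r = K % J₀ := ⟨_, rfl⟩
  have hK : K = q * J₀ + r := by
    rw [hq, hr, mul_comm]
    exact (Nat.div_add_mod K J₀).symm
  have hrJ : r ≤ J₀ := by
    rw [hr]
    exact (Nat.mod_lt _ hJ1).le
  obtain ⟨V, hV⟩ : ∃ V : ℕ → ℝ, V = fun n => if 2 * n ≤ K then x + 3 / 10 * K else x := ⟨_, rfl⟩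
  have h14 : 1 ≤ x ^ (1 / 4 : ℝ) := Real.one_le_rpow (by linarith) (by norm_num)
  have h144 : (x ^ (1 / 4 : ℝ)) ^ 4 = x := by
    rw [← Real.rpow_natCast, ← Real.rpow_mul hx0.le]
    norm_num
  have hstep : ∀ (n J : ℕ) (y : ℝ), n + J ≤ K → J ≤ J₀ → w ≤ y → y ≤ V n →
      |(fun j => Gd (B (t + j))) (K - n) y - PJ J ((fun j => Gd (B (t + j))) (K - n - J)) y| ≤
        C / x ^ 2 := by
    intro n J y hn hJ hwy hyV
    have hJR : (J : ℝ) ≤ J₀ := by exact_mod_cast hJ
    have hy0 : 0 < y := by linarith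
    have ht' : y ^ (1 / 4 : ℝ) ≤ ((t + (K - n - J) : ℕ) : ℝ) := by
      have hcast : ((t + (K - n - J) : ℕ) : ℝ) = t + (K - n - J) := by
        rw [Nat.sub_sub, Nat.cast_add, Nat.cast_sub hn]
        push_cast
        ring
      have hnR : (n : ℝ) + J ≤ K := by exact_mod_cast hn
      rw [hcast]
      rw [hV] at hyV
      by_cases h2n : 2 * n ≤ K
      · simp only [h2n, if_true] at hyV
        have h2nR : 2 * (n : ℝ) ≤ K := by exact_mod_cast h2n
        have h3 : (K : ℝ) / 4 ≤ K - n - J := by linarith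
        obtain ⟨p, hp⟩ : ∃ p, p = x ^ (1 / 4 : ℝ) := ⟨_, rfl⟩
        rw [← hp] at h14 h144 ht
        have h4 : y ≤ (p + K / 4) ^ 4 := by
          have h5 : (p + K / 4) ^ 4 = p ^ 4 + K * p ^ 3 + (K / 4) ^ 2 * (6 * p ^ 2 + p * K +
            (K / 4) ^ 2) := by ring
          have h6 : (1 : ℝ) ≤ p ^ 3 := one_le_pow₀ h14
          have h7 : (K : ℝ) ≤ K * p ^ 3 := le_mul_of_one_le_right hKnn h6
          have h8 : 0 ≤ ((K : ℝ) / 4) ^ 2 * (6 * p ^ 2 + p * K + (K / 4) ^ 2) := by positivity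
          rw [h5, h144]
          linarith
        calc y ^ (1 / 4 : ℝ) ≤ ((p + K / 4) ^ 4) ^ (1 / 4 : ℝ) :=
              Real.rpow_le_rpow hy0.le h4 (by norm_num)
          _ = p + K / 4 := by
              rw [← Real.rpow_natCast, ← Real.rpow_mul (by positivity)]
              norm_num
          _ ≤ t + (K - n - J) := by linarith
      · simp only [h2n, if_false] at hyV
        have h4 : y ^ (1 / 4 : ℝ) ≤ x ^ (1 / 4 : ℝ) := Real.rpow_le_rpow hy0.le hyV (by norm_num)
        linarith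
    have h1 := hT d B lo (t + (K - n - J)) J y (by linarith) (by linarith) hinv (by linarith) ht'
    have h2 : t + (K - n - J) + J = t + (K - n) := by omega
    rw [h2] at h1
    refine h1.trans ?_
    apply div_le_div_of_nonneg_left hC.le (by positivity)
    have h3 : √x ≤ y := hwx.trans hwy
    calc x ^ 2 = √x ^ 4 := by
          rw [show (4 : ℕ) = 2 * 2 by norm_num, pow_mul, Real.sq_sqrt hx0.le]
      _ ≤ y ^ 4 := pow_le_pow_left₀ (Real.sqrt_nonneg x) h3 4
  have h1 := kstepV (G := fun j => Gd (B (t + j))) (w := w) (ε := C / x ^ 2) (x := x) (V := V)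
    (J₀ := J₀) (K := K) (q := q) (r := r) (fun j y => by
      rw [abs_of_nonneg (gd_nonneg _ _)]
      exact gd_le_two _ _) (by positivity) hK hrJ hstep
  simp only [add_zero] at h1
  refine h1.trans ?_
  have hK5 : (K : ℝ) ≤ 5 * x := by
    have h2 : mu * K ≤ x := by linarith
    nlinarith
  have htail : ∀ i ∈ range (q + 1), tl (i * J₀) x w + tu (i * J₀) x (V (i * J₀)) ≤ 4 / x ^ 2 := by
    intro i hi
    rw [Finset.mem_range] at hi
    have h3 : i * J₀ ≤ K := by
      have : i * J₀ ≤ q * J₀ := Nat.mul_le_mul_right _ (by omega)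
      omega
    obtain ⟨n, hn⟩ : ∃ n, n = i * J₀ := ⟨_, rfl⟩
    rw [← hn] at h3 ⊢
    have h3R : (n : ℝ) ≤ K := by exact_mod_cast h3
    have e0 : (4 : ℝ) / x ^ 2 = 2 * (1 / x ^ 2) + 2 * (1 / x ^ 2) := by ring
    have hp2 : (0 : ℝ) ≤ 1 / x ^ 2 := by positivity
    have e1 : tl n x w ≤ 2 * (1 / x ^ 2) := by
      rcases Nat.eq_zero_or_pos n with h0 | h0
      · rw [h0, tl_zero hwx']
        positivity
      · have h0R : (0 : ℝ) < n := by exact_mod_cast h0
        have h4 : w + x ^ (3 / 5 : ℝ) ≤ x - mu * n := by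
          have := mul_le_mul_of_nonneg_left h3R hmu0.le
          linarith
        have h5 := tl_le h0 hy h4
        have h6 := hexp n h0R (by linarith)
        linarith
    have e2 : tu n x (V n) ≤ 2 * (1 / x ^ 2) := by
      rw [hV]
      by_cases h2n : 2 * n ≤ K
      · simp only [h2n, if_true]
        have h2nR : 2 * (n : ℝ) ≤ K := by exact_mod_cast h2n
        rw [tu_zero (by linarith)]
        positivity
      · simp only [h2n, if_false]
        have h2nR : (K : ℝ) < 2 * n := by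
          have : K < 2 * n := by omega
          exact_mod_cast this
        have h4 : x - mu * n + x ^ (3 / 5 : ℝ) ≤ x := by
          have h5 : 1 / 5 * (n : ℝ) ≤ mu * n := mul_le_mul_of_nonneg_right hmu (Nat.cast_nonneg n)
          linarith
        have h5 := tu_le hy h4
        have h6 := hexp n (by linarith) (by linarith)
        linarith
    linarith
  have h2 : ∑ i ∈ range (q + 1), (tl (i * J₀) x w + tu (i * J₀) x (V (i * J₀))) ≤
      (q + 1) * (4 / x ^ 2) := by
    refine (Finset.sum_le_sum htail).trans ?_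
    rw [Finset.sum_const, Finset.card_range, nsmul_eq_mul]
    push_cast
    exact le_rfl
  have hq6 : (q : ℝ) + 1 ≤ 6 * x := by
    have h3 : q ≤ K := by
      rw [hq]
      exact Nat.div_le_self _ _
    have h4 : (q : ℝ) ≤ K := by exact_mod_cast h3
    linarith
  calc (q + 1) * (C / x ^ 2) + 4 * ∑ i ∈ range (q + 1),
        (tl (i * J₀) x w + tu (i * J₀) x (V (i * J₀)))
      ≤ (q + 1) * (C / x ^ 2) + 4 * ((q + 1) * (4 / x ^ 2)) := by linarith
    _ = (q + 1) * ((C + 16) / x ^ 2) := by ring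
    _ ≤ 6 * x * ((C + 16) / x ^ 2) := mul_le_mul_of_nonneg_right hq6 (by positivity)
    _ = 6 * (C + 16) / x := by field_simp

end Pool.Agent.Lib.MP_edb5be_nt.TS.HB82
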