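import Pool.Agent.Lib.MP_edb5be_nt.TS.Iface
import Pool.Agent.Lib.MP_edb5be_nt.ND.H82.Gauss
import Pool.Agent.Lib.MP_edb5be_nt.ND.H57.TGFT

/-!
Project TS: the families `Rch` and `Fll` satisfy the abstract conditions `TGF` and `Base`.
-/

set_option autoImplicit false

namespace Pool.Agent.Lib.MP_edb5be_nt.TS.HB82

open Finset Filter Topology Pool.Agent.Lib.MP_0a5adf_nt.TP Pool.Agent.Lib.MP_edb5be_nt.ND
  Pool.Agent.Lib.MP_edb5be_nt.ND.H82

theorem gd_nonneg (B : Set ℕ) (u : ℝ) : 0 ≤ Gd B u := by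
  unfold Gd
  positivity

theorem gd_mono {B B' : Set ℕ} {u : ℝ} (h : ∀ N : ℕ, (2 : ℝ) ^ u ≤ N → (N : ℝ) < 2 ^ (u + 1) →
    N ∈ B → N ∈ B') : Gd B u ≤ Gd B' u := by
  have h1 : (H63.blkB B u).ncard ≤ (H63.blkB B' u).ncard :=
    Set.ncard_le_ncard (fun N hN => ⟨h N hN.2.1 hN.2.2 hN.1, hN.2⟩) (H63.blkB_fin B' u)
  exact div_le_div_of_nonneg_right (by exact_mod_cast h1) (by positivity)

theorem gd_congr {B B' : Set ℕ} {u : ℝ} (h : ∀ N : ℕ, (2 : ℝ) ^ u ≤ N → (N : ℝ) < 2 ^ (u + 1) →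
    (N ∈ B ↔ N ∈ B')) : Gd B u = Gd B' u :=
  le_antisymm (gd_mono fun N h1 h2 => (h N h1 h2).1) (gd_mono fun N h1 h2 => (h N h1 h2).2)

theorem gd_le_two (B : Set ℕ) (u : ℝ) : Gd B u ≤ 2 := by
  rcases le_or_gt 0 u with hu | hu
  · have h1 := (H63.lip B u 0 hu le_rfl (by norm_num)).2.1
    have h2 : (1 : ℝ) ≤ 2 ^ u := Real.one_le_rpow (by norm_num) hu
    have h3 : 1 / (2 : ℝ) ^ u ≤ 1 := by
      rw [div_le_one (by positivity)]
      exact h2
    linarith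
  · unfold Gd
    have hp : (0 : ℝ) < 2 ^ u := by positivity
    have hp1 : (2 : ℝ) ^ (u + 1) = 2 * 2 ^ u := by
      rw [Real.rpow_add (by norm_num), Real.rpow_one]
      ring
    have hu1 : (2 : ℝ) ^ u < 1 := Real.rpow_lt_one_of_one_lt_of_neg (by norm_num) hu
    rw [div_le_iff₀ hp]
    rcases Set.eq_empty_or_nonempty
      {N : ℕ | N ∈ B ∧ (2 : ℝ) ^ u ≤ N ∧ (N : ℝ) < 2 ^ (u + 1)} with h | ⟨N, h⟩
    · rw [h]
      simp
      positivity
    · have key : ∀ M : ℕ, (2 : ℝ) ^ u ≤ M → (M : ℝ) < 2 ^ (u + 1) → M = 1 := by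
        intro M h1 h2
        have h3 : 0 < M := by
          rcases Nat.eq_zero_or_pos M with h0 | h0
          · rw [h0] at h1
            push_cast at h1
            linarith
          · exact h0
        have h4 : (M : ℝ) < 2 := by linarith
        have h5 : M < 2 := by exact_mod_cast h4
        omega
      have h1 : {N : ℕ | N ∈ B ∧ (2 : ℝ) ^ u ≤ N ∧ (N : ℝ) < 2 ^ (u + 1)}.ncard ≤ 1 := by
        refine (Set.ncard_le_one_iff (H63.blkB_fin B u)).2 ?_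
        intro a b ha hb
        rw [key a ha.2.1 ha.2.2, key b hb.2.1 hb.2.2]
      have h2 : (1 : ℝ) ≤ 2 * 2 ^ u := by
        have h3 := key N h.2.1 h.2.2
        have h4 := h.2.2
        rw [h3, hp1] at h4
        push_cast at h4
        exact h4.le
      have h3 : (({N : ℕ | N ∈ B ∧ (2 : ℝ) ^ u ≤ N ∧ (N : ℝ) < 2 ^ (u + 1)}.ncard : ℕ) : ℝ) ≤ 1 := by
        exact_mod_cast h1
      linarith

theorem le_two_T (d : Bool) (n : ℕ) : n ≤ 2 * T d n := by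
  unfold T
  split_ifs <;> omega

theorem le_pow_T (d : Bool) (k : ℕ) : ∀ n : ℕ, n ≤ 2 ^ k * (T d)^[k] n := by
  induction k with
  | zero => intro n; simp
  | succ k ih =>
    intro n
    rw [Function.iterate_succ_apply]
    calc n ≤ 2 * T d n := le_two_T d n
      _ ≤ 2 * (2 ^ k * (T d)^[k] (T d n)) := Nat.mul_le_mul_left _ (ih _)
      _ = 2 ^ (k + 1) * (T d)^[k] (T d n) := by ring

/-- INST: families of sets satisfy `TGF`, with uniform constants. -/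
theorem tgf_of : ∃ C u₀ : ℝ, 0 ≤ C ∧ 0 ≤ u₀ ∧ ∀ (d : Bool) (B : ℕ → Set ℕ) (lo : ℕ),
    InvF d B lo → (∀ (t n : ℕ), n ∈ B t → n < 2 ^ (lo + t)) →
    TGF (fun t x => Gd (B t) x) lo C u₀ := by
  obtain ⟨C, u₀, hC, h⟩ := H57.tgpfT 4
  refine ⟨C, max u₀ 0, hC.le, le_max_right _ _, ?_⟩
  intro d B lo hB hz
  apply TGF.of_nat hC.le (fun t x => gd_nonneg _ _) (fun t x => gd_le_two _ _)
    (Nat.cast_nonneg lo) _ _ (le_max_right _ _)
  · intro t J u hu hlo hJ ht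
    exact h d B lo t J u ((le_max_left _ _).trans hu) hlo hB hJ ht
  · intro t x hx
    have h0 : {N : ℕ | N ∈ B t ∧ (2 : ℝ) ^ x ≤ N ∧ (N : ℝ) < 2 ^ (x + 1)} = ∅ := by
      rw [Set.eq_empty_iff_forall_notMem]
      rintro N ⟨h1, h2, -⟩
      have h3 := hz t N h1
      have h4 : (N : ℝ) < 2 ^ ((lo : ℝ) + t) := by
        have h5 : (N : ℝ) < ((2 ^ (lo + t) : ℕ) : ℝ) := by exact_mod_cast h3
        rw [← Nat.cast_add, Real.rpow_natCast]
        push_cast at h5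
        exact h5
      have h6 : (2 : ℝ) ^ ((lo : ℝ) + t) ≤ 2 ^ x :=
        Real.rpow_le_rpow_of_exponent_le (by norm_num) hx
      linarith
    show Gd (B t) x = 0
    unfold Gd
    rw [h0]
    simp

/-- BASE: on bounded ranges an increasing family is its limit after a finite time. -/
theorem base_of {B : ℕ → Set ℕ} {B' : Set ℕ} {D : ℝ} (hm : ∀ t t' : ℕ, t ≤ t' → B t ⊆ B t')
    (hB : ∀ n, n ∈ B' → ∃ t, n ∈ B t) (hD : Tendsto (Gd B') atTop (𝓝 D)) :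
    Base (fun t x => Gd (B t) x) D := by
  classical
  intro η hη
  have h1 := hD.eventually (lt_mem_nhds (show D - η < D by linarith))
  obtain ⟨x₀, hx₀⟩ := eventually_atTop.1 h1
  refine ⟨x₀, fun M => ?_⟩
  choose! τ hτ using hB
  refine ⟨((range ⌈(2 : ℝ) ^ (M + 1)⌉₊).sup τ), ?_⟩
  intro t ht x hx hxM
  refine (hx₀ x hx).le.trans ?_
  apply gd_mono
  intro N _ hN2 hN
  apply hm _ _ _ (hτ N hN)
  refine le_trans ?_ ht
  apply Finset.le_sup (f := τ)
  rw [Finset.mem_range]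
  have h2 : (N : ℝ) < 2 ^ (M + 1) := hN2.trans_le
    (Real.rpow_le_rpow_of_exponent_le (by norm_num) (by linarith))
  exact_mod_cast h2.trans_le (Nat.le_ceil _)

end Pool.Agent.Lib.MP_edb5be_nt.TS.HB82
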